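import Pool.Agent.Helper11.LV.Defs

/-! # Project LV, block A6: the size of the Euler products over the primes up to `y` -/

set_option autoImplicit false

namespace Pool.Agent.Helper47.LV

open Finset Pool.Agent.Helper11.LV

/-- the size of one factor -/
theorem pw_le {p : ℕ} (hp : p.Prime) {s : ℂ} {d : ℝ} (hd : 0 < d) (hs : s.re = 1 / 2 + d) {c : ℂ} (hc : ‖c‖ ≤ 1) :
    ‖c * (p : ℂ) ^ (-s)‖ ≤ 3 / 4 ∧ ‖c * (p : ℂ) ^ (-s)‖ ^ 2 ≤ 1 / p := by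
  have hp0 : 0 < p := hp.pos
  have hp2 : (2 : ℝ) ≤ p := by exact_mod_cast hp.two_le
  have hpR : (0 : ℝ) < p := by linarith
  have h1 : ‖c * (p : ℂ) ^ (-s)‖ ≤ (p : ℝ) ^ (-(1 / 2) : ℝ) := by
    rw [norm_mul, Complex.norm_natCast_cpow_of_pos hp0]
    have h2 : (p : ℝ) ^ (-s).re ≤ (p : ℝ) ^ (-(1 / 2) : ℝ) := by
      apply Real.rpow_le_rpow_of_exponent_le (by linarith)
      rw [Complex.neg_re, hs]
      linarith
    have h3 : 0 ≤ (p : ℝ) ^ (-s).re := Real.rpow_nonneg hpR.le _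
    calc ‖c‖ * (p : ℝ) ^ (-s).re ≤ 1 * (p : ℝ) ^ (-s).re := mul_le_mul_of_nonneg_right hc h3
      _ ≤ _ := by rw [one_mul]; exact h2
  have h4 : ((p : ℝ) ^ (-(1 / 2) : ℝ)) ^ 2 = 1 / p := by
    rw [← Real.rpow_natCast, ← Real.rpow_mul hpR.le]
    norm_num
    rw [Real.rpow_neg_one]
  have h5 : 0 ≤ ‖c * (p : ℂ) ^ (-s)‖ := norm_nonneg _
  have h6 : ‖c * (p : ℂ) ^ (-s)‖ ^ 2 ≤ 1 / p := by
    rw [← h4]
    exact pow_le_pow_left₀ h5 h1 2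
  refine ⟨?_, h6⟩
  have h7 : (1 : ℝ) / p ≤ 1 / 2 := one_div_le_one_div_of_le (by norm_num) hp2
  nlinarith

/-- the logarithm of `‖1 - z‖` -/
theorem one_sub_ge {z : ℂ} (hz : ‖z‖ ≤ 3 / 4) : Real.exp (-z.re - 2 * ‖z‖ ^ 2) ≤ ‖1 - z‖ := by
  have h1 : ‖-z‖ < 1 := by rw [norm_neg]; linarith
  have h2 := Complex.norm_log_one_add_sub_self_le h1
  rw [norm_neg] at h2
  have h3 : 1 + -z ≠ 0 := by
    intro h
    have h4 : z = 1 := by linear_combination -h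
    rw [h4, norm_one] at hz
    norm_num at hz
  have h5 : ‖1 - z‖ = Real.exp (Complex.log (1 + -z)).re := by
    rw [← Complex.norm_exp, Complex.exp_log h3, sub_eq_add_neg]
  rw [h5]
  apply Real.exp_le_exp.2
  have h6 : (1 - ‖z‖)⁻¹ ≤ 4 := by
    rw [inv_le_comm₀ (by linarith) (by norm_num)]
    linarith
  have h7 : ‖Complex.log (1 + -z) - -z‖ ≤ 2 * ‖z‖ ^ 2 := by
    refine h2.trans ?_
    have := sq_nonneg ‖z‖
    nlinarith
  have h8 := (abs_le.1 (Complex.abs_re_le_norm (Complex.log (1 + -z) - -z))).1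
  rw [Complex.sub_re, Complex.neg_re] at h8
  linarith

/-- the logarithm of `‖1 + z‖` -/
theorem one_add_le (z : ℂ) : ‖1 + z‖ ≤ Real.exp (z.re + ‖z‖ ^ 2) := by
  have h1 : ‖1 + z‖ ^ 2 = 1 + 2 * z.re + ‖z‖ ^ 2 := by
    rw [← Complex.normSq_eq_norm_sq, ← Complex.normSq_eq_norm_sq, Complex.normSq_apply, Complex.normSq_apply]
    simp only [Complex.add_re, Complex.one_re, Complex.add_im, Complex.one_im, zero_add]
    ring
  have h2 : ‖1 + z‖ ^ 2 ≤ Real.exp (z.re + ‖z‖ ^ 2) ^ 2 := by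
    rw [h1, ← Real.exp_nat_mul]
    have h3 := Real.add_one_le_exp (((2 : ℕ) : ℝ) * (z.re + ‖z‖ ^ 2))
    push_cast at h3 ⊢
    nlinarith [sq_nonneg ‖z‖]
  exact (pow_le_pow_iff_left₀ (norm_nonneg _) (Real.exp_pos _).le two_ne_zero).1 h2

/-- the sum of the reciprocals of the primes -/
theorem sum_inv_le {y : ℕ} : ∑ p ∈ Pr y, (1 : ℝ) / p ≤ 1 + Real.log y := by
  have h1 : ∑ p ∈ Pr y, (1 : ℝ) / p ≤ ∑ n ∈ Finset.Icc 1 y, (1 : ℝ) / n :=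
    Finset.sum_le_sum_of_subset_of_nonneg (Finset.filter_subset _ _) fun n _ _ => by positivity
  have h2 : ∑ n ∈ Finset.Icc 1 y, (1 : ℝ) / n = ((harmonic y : ℚ) : ℝ) := by
    rw [harmonic_eq_sum_Icc]
    push_cast
    exact Finset.sum_congr rfl fun n _ => by rw [one_div]
  rw [h2] at h1
  exact h1.trans (harmonic_le_one_add_log y)

/-- A6 -/
theorem FM_ge {χ : ℕ → ℂ} (hχ : CMB χ) {s : ℂ} {d : ℝ} (hd : 0 < d) (hs : s.re = 1 / 2 + d) {y : ℕ} (hy : 1 ≤ y) :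
    Real.exp (-(∑ p ∈ Pr y, (χ p * (p : ℂ) ^ (-s)).re) - 4 * (1 + Real.log y)) ≤ ‖FM χ s y‖ := by
  have hlog : 0 ≤ Real.log y := Real.log_nonneg (by exact_mod_cast hy)
  have h1 : Real.exp (∑ p ∈ Pr y, (-(χ p * (p : ℂ) ^ (-s)).re - 2 * (1 / (p : ℝ)))) ≤ ‖FM χ s y‖ := by
    unfold FM
    rw [Real.exp_sum, norm_prod]
    refine Finset.prod_le_prod (fun p _ => (Real.exp_pos _).le) fun p hp => ?_
    obtain ⟨h2, h3⟩ := pw_le (mem_Pr.1 hp).1 hd hs (hχ.le p)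
    refine le_trans (Real.exp_le_exp.2 ?_) (one_sub_ge h2)
    linarith
  refine le_trans (Real.exp_le_exp.2 ?_) h1
  rw [Finset.sum_sub_distrib, Finset.sum_neg_distrib, ← Finset.mul_sum]
  have := sum_inv_le (y := y)
  linarith

theorem FL_ge {χ : ℕ → ℂ} (hχ : CMB χ) {s : ℂ} {d : ℝ} (hd : 0 < d) (hs : s.re = 1 / 2 + d) {y : ℕ} (hy : 1 ≤ y) :
    Real.exp (-(∑ p ∈ Pr y, (χ p * (p : ℂ) ^ (-s)).re) - 4 * (1 + Real.log y)) ≤ ‖FL χ s y‖ := by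
  have hlog : 0 ≤ Real.log y := Real.log_nonneg (by exact_mod_cast hy)
  have h1 : Real.exp (∑ p ∈ Pr y, (-(χ p * (p : ℂ) ^ (-s)).re - 2 * (1 / (p : ℝ)))) ≤ ‖FL χ s y‖ := by
    unfold FL
    rw [Real.exp_sum, norm_prod]
    refine Finset.prod_le_prod (fun p _ => (Real.exp_pos _).le) fun p hp => ?_
    have hp1 := (mem_Pr.1 hp).1
    obtain ⟨h2, h3⟩ := pw_le hp1 hd hs (hχ.le p)
    have h4 := one_add_le (χ p * (p : ℂ) ^ (-s))
    have h5 : 1 + χ p * (p : ℂ) ^ (-s) ≠ 0 := by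
      intro h
      have h6 : χ p * (p : ℂ) ^ (-s) = -1 := by linear_combination h
      rw [h6, norm_neg, norm_one] at h2
      norm_num at h2
    have h6 : 0 < ‖1 + χ p * (p : ℂ) ^ (-s)‖ := norm_pos_iff.2 h5
    rw [norm_inv, le_inv_comm₀ (Real.exp_pos _) h6, ← Real.exp_neg]
    refine h4.trans (Real.exp_le_exp.2 ?_)
    have h7 : (0 : ℝ) ≤ 1 / p := by positivity
    linarith
  refine le_trans (Real.exp_le_exp.2 ?_) h1
  rw [Finset.sum_sub_distrib, Finset.sum_neg_distrib, ← Finset.mul_sum]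
  have := sum_inv_le (y := y)
  linarith

theorem real_pow {d : ℝ} (p : ℕ) : (p : ℂ) ^ (-((1 / 2 + d : ℝ) : ℂ)) = (((p : ℝ) ^ (-(1 / 2 + d)) : ℝ) : ℂ) := by
  rw [Complex.ofReal_cpow (Nat.cast_nonneg p)]
  push_cast
  rfl

theorem FM_le_one {χ : ℕ → ℂ} {d : ℝ} (hd : 0 < d) {y : ℕ} (h : ∀ p ∈ Pr y, χ p = 1) : ‖FM χ ((1 / 2 + d : ℝ) : ℂ) y‖ ≤ 1 := by
  unfold FM
  rw [norm_prod]
  refine Finset.prod_le_one (fun p _ => norm_nonneg _) fun p hp => ?_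
  have hp2 : (2 : ℝ) ≤ p := by exact_mod_cast (mem_Pr.1 hp).1.two_le
  have h1 : 0 ≤ (p : ℝ) ^ (-(1 / 2 + d)) := Real.rpow_nonneg (by linarith) _
  have h2 : (p : ℝ) ^ (-(1 / 2 + d)) ≤ 1 := Real.rpow_le_one_of_one_le_of_nonpos (by linarith) (by linarith)
  rw [h p hp, one_mul, real_pow, ← Complex.ofReal_one, ← Complex.ofReal_sub, Complex.norm_real, Real.norm_eq_abs,
    abs_of_nonneg (by linarith)]
  linarith

theorem FL_le_one {χ : ℕ → ℂ} {d : ℝ} (hd : 0 < d) {y : ℕ} (h : ∀ p ∈ Pr y, χ p = 1) : ‖FL χ ((1 / 2 + d : ℝ) : ℂ) y‖ ≤ 1 := by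
  unfold FL
  rw [norm_prod]
  refine Finset.prod_le_one (fun p _ => norm_nonneg _) fun p hp => ?_
  have hp2 : (2 : ℝ) ≤ p := by exact_mod_cast (mem_Pr.1 hp).1.two_le
  have h1 : 0 ≤ (p : ℝ) ^ (-(1 / 2 + d)) := Real.rpow_nonneg (by linarith) _
  rw [h p hp, one_mul, real_pow, norm_inv, ← Complex.ofReal_one, ← Complex.ofReal_add, Complex.norm_real, Real.norm_eq_abs,
    abs_of_nonneg (by linarith)]
  exact inv_le_one_of_one_le₀ (by linarith)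

end Pool.Agent.Helper47.LV
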